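import Pool.Agent.Helper5.FRD.Goals

/-!
# CHAIN: the chain of `e`

The smallest set containing `e` which is closed under `t` and, on `Z`, under `p` has the two ends
`e` and `t' e` outside `Z`.
-/

set_option autoImplicit false

namespace Pool.Agent.Helper62.FRD.CHAIN

open Finset Pool.Agent.Helper5.FRC Pool.Agent.Helper5.FRD

theorem t (h1 : CompStmt) : Pool.Agent.Helper5.FRD.ChainStmt := by
  intro V _ _ A Z t p t' hA hZ hp hR e he
  obtain ⟨hP', -, hlast⟩ := hR
  have he' := mem_sdiff.mp he
  have key : ∀ U ⊆ A, Cl Z ∅ t p U → ∀ x ∈ U, x ∉ Z → t' x ∈ U ∧ t' x ∉ Z := by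
    intro U hU hC x hx hxZ
    have h0 : dm t U = 0 := by
      unfold dm
      rw [card_eq_zero, filter_eq_empty_iff]
      intro y hy
      exact not_not.mpr (hC y hy).1
    have h2 := hlast U hU (fun z hz hzZ => (hC z hz).2 hzZ (notMem_empty z))
    rw [h0] at h2
    have h3 : dm t' (U \ Z) = 0 := Nat.le_zero.mp h2
    unfold dm at h3
    rw [card_eq_zero, filter_eq_empty_iff] at h3
    exact mem_sdiff.mp (not_not.mp (h3 (mem_sdiff.mpr ⟨hx, hxZ⟩)))
  obtain ⟨hte1, hte2, hte3⟩ := hP' e he
  refine ⟨?_, ?_, ?_⟩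
  · obtain ⟨D, hD, heD, hCD, hmin, hcard⟩ := h1 V A Z ∅ t p hA hZ hp (empty_subset Z)
      (by intro x hx; exact absurd hx (notMem_empty x)) e he'.1
    have hf : (D.filter fun v => v ∉ Z ∨ v ∈ (∅ : Finset V)) = D \ Z := by
      ext v
      simp
    rw [hf] at hcard
    have hsub : ({e, t' e} : Finset V) ⊆ D \ Z := by
      intro x hx
      rw [mem_insert, mem_singleton] at hx
      rcases hx with rfl | rfl
      · exact mem_sdiff.mpr ⟨heD, he'.2⟩
      · exact mem_sdiff.mpr (key D hD hCD e heD he'.2)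
    have hc2 : ({e, t' e} : Finset V).card = 2 := card_pair (Ne.symm hte3)
    have hle : (D \ Z).card ≤ ({e, t' e} : Finset V).card := by
      rw [hc2]
      rcases hcard with h | h <;> omega
    refine ⟨D, hD, hCD, (eq_of_subset_of_card_le hsub hle).symm, hmin, ?_⟩
    intro U' hU' hfU' hCU'
    have h4 := key U' hU' hCU' (t' e) hfU' (mem_sdiff.mp hte1).2
    rw [hte2] at h4
    exact hmin U' hU' h4.1 hCU'
  · intro hteZ
    obtain ⟨ht1, ht2, ht3⟩ := hA e he'.1
    have hU : ({e, t e} : Finset V) ⊆ A := by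
      intro x hx
      rw [mem_insert, mem_singleton] at hx
      rcases hx with rfl | rfl
      · exact he'.1
      · exact ht1
    have hC : Cl Z ∅ t p ({e, t e} : Finset V) := by
      intro x hx
      rw [mem_insert, mem_singleton] at hx
      rcases hx with rfl | rfl
      · refine ⟨by simp, fun h => absurd h he'.2⟩
      · refine ⟨by rw [ht2]; simp, fun h => absurd h hteZ⟩
    have h5 := (key _ hU hC e (by simp) he'.2).1
    rw [mem_insert, mem_singleton] at h5
    exact h5.resolve_left hte3
  · intro U hU hC heU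
    exact (key U hU hC e heU he'.2).1

end Pool.Agent.Helper62.FRD.CHAIN
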